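import Pool.Agent.H468R2.MA.Final

/-!
# Masas of the hyperfinite II₁ factor are not classifiable by countable structures
-/

set_option autoImplicit false

open scoped InnerProductSpace

namespace Pool.Agent.Results.MP_c82b80_an.NotClassifiable

section defs

variable {H : Type} [NormedAddCommGroup H] [InnerProductSpace ℂ H] [CompleteSpace H]

/-- `M` is a II₁ factor in standard form on `H`, with trace vector `Ω`: the vector state of `Ω` is
a trace on `M`, `Ω` is cyclic and separating, the centre of `M` is trivial, and `H` is infinite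
dimensional. -/
structure IsStdII1 (M : VonNeumannAlgebra H) (Ω : H) : Prop where
  unit : ‖Ω‖ = 1
  tr : ∀ x ∈ M, ∀ y ∈ M, ⟪Ω, x (y Ω)⟫_ℂ = ⟪Ω, y (x Ω)⟫_ℂ
  cyc : Dense {ξ : H | ∃ x ∈ M, ξ = x Ω}
  sep : ∀ x ∈ M, x Ω = 0 → x = 0
  fac : ∀ z ∈ M, (∀ x ∈ M, z * x = x * z) → ∃ c : ℂ, z = c • (1 : H →L[ℂ] H)
  inf : ¬ FiniteDimensional ℂ H

/-- `A` is a unital *-subalgebra of `B(H)`. -/
structure IsStarAlg (A : Set (H →L[ℂ] H)) : Prop where
  one : 1 ∈ A
  add : ∀ x ∈ A, ∀ y ∈ A, x + y ∈ A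
  mul : ∀ x ∈ A, ∀ y ∈ A, x * y ∈ A
  smul : ∀ (c : ℂ), ∀ x ∈ A, c • x ∈ A
  adj : ∀ x ∈ A, star x ∈ A

/-- `A` is spanned by finitely many operators. -/
def FinSpanned (A : Set (H →L[ℂ] H)) : Prop :=
  ∃ (m : ℕ) (e : Fin m → H →L[ℂ] H), ∀ x ∈ A, ∃ c : Fin m → ℂ, x = ∑ i, c i • e i

/-- `M` is hyperfinite: there is an increasing sequence of finite dimensional *-subalgebras of `M`
whose union is dense for the 2-norm. -/
def Hyperfinite (M : VonNeumannAlgebra H) (Ω : H) : Prop :=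
  ∃ N : ℕ → Set (H →L[ℂ] H), (∀ n, IsStarAlg (N n) ∧ FinSpanned (N n)) ∧
    (∀ n, N n ⊆ N (n + 1)) ∧ (∀ n, ∀ x ∈ N n, x ∈ M) ∧
      ∀ x ∈ M, ∀ ε : ℝ, 0 < ε → ∃ n, ∃ y ∈ N n, ‖x Ω - y Ω‖ < ε

/-- `A` is an abelian *-subalgebra of `M`. -/
def IsAbel (M : VonNeumannAlgebra H) (A : Set (H →L[ℂ] H)) : Prop :=
  IsStarAlg A ∧ (∀ x ∈ A, x ∈ M) ∧ ∀ x ∈ A, ∀ y ∈ A, x * y = y * x

/-- `A` is a masa: a maximal abelian self-adjoint subalgebra of `M`. -/
def IsMasa (M : VonNeumannAlgebra H) (A : Set (H →L[ℂ] H)) : Prop :=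
  IsAbel M A ∧ ∀ B : Set (H →L[ℂ] H), IsAbel M B → A ⊆ B → B ⊆ A

/-- The set of masas of `M`. -/
def Masa (M : VonNeumannAlgebra H) : Type := {A : Set (H →L[ℂ] H) // IsMasa M A}

/-- `U` is open in the weak operator topology. -/
def WOpen (U : Set (H →L[ℂ] H)) : Prop :=
  ∀ T ∈ U, ∃ (n : ℕ) (ξ η : Fin n → H) (ε : ℝ), 0 < ε ∧
    ∀ S : H →L[ℂ] H, (∀ i, ‖⟪η i, S (ξ i)⟫_ℂ - ⟪η i, T (ξ i)⟫_ℂ‖ < ε) → S ∈ U

/-- The Effros Borel structure on the set of masas of `M`: it is generated by the sets of masas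
whose unit ball meets a given weakly open set. -/
def effros (M : VonNeumannAlgebra H) : MeasurableSpace (Masa M) :=
  MeasurableSpace.generateFrom
    {S | ∃ U : Set (H →L[ℂ] H), WOpen U ∧ S = {A : Masa M | ∃ a ∈ A.1, ‖a‖ ≤ 1 ∧ a ∈ U}}

/-- The elements of `M`. -/
def El (M : VonNeumannAlgebra H) : Type := {x : H →L[ℂ] H // x ∈ M}

/-- `θ` is a *-automorphism of `M`. -/
structure IsAut (M : VonNeumannAlgebra H) (θ : El M → El M) : Prop where
  bij : Function.Bijective θ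
  add : ∀ x y z : El M, z.1 = x.1 + y.1 → (θ z).1 = (θ x).1 + (θ y).1
  mul : ∀ x y z : El M, z.1 = x.1 * y.1 → (θ z).1 = (θ x).1 * (θ y).1
  smul : ∀ (c : ℂ) (x z : El M), z.1 = c • x.1 → (θ z).1 = c • (θ x).1
  adj : ∀ x z : El M, z.1 = star x.1 → (θ z).1 = star (θ x).1

/-- `B = θ(A)` for some *-automorphism `θ` of `M`. -/
def Conj {M : VonNeumannAlgebra H} (A B : Masa M) : Prop :=
  ∃ θ : El M → El M, IsAut M θ ∧ ∀ x : El M, x.1 ∈ A.1 ↔ (θ x).1 ∈ B.1

end defs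

/-- The Borel structure of the space `Mod(L)` of `L`-structures with universe `ℕ`. -/
def modMS (L : FirstOrder.Language.{0, 0}) : MeasurableSpace (L.Structure ℕ) :=
  MeasurableSpace.generateFrom
    ({S | ∃ (n : ℕ) (F : L.Functions n) (a : Fin n → ℕ) (b : ℕ),
        S = {𝔐 : L.Structure ℕ | 𝔐.funMap F a = b}} ∪
      {S | ∃ (n : ℕ) (R : L.Relations n) (a : Fin n → ℕ),
        S = {𝔐 : L.Structure ℕ | 𝔐.RelMap R a}})

/-- The relation `E` on the Borel space `Y` is classifiable by countable structures: there are a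
countable first-order language `L` and a Borel map `f` from `Y` to the `L`-structures with universe
`ℕ` such that `E x y` holds exactly when `f x` and `f y` are isomorphic. -/
def Classifiable {Y : Type} (mY : MeasurableSpace Y) (E : Y → Y → Prop) : Prop :=
  ∃ (L : FirstOrder.Language.{0, 0}) (_ : Countable (Σ n, L.Functions n))
    (_ : Countable (Σ n, L.Relations n)) (f : Y → L.Structure ℕ),
    @Measurable _ _ mY (modMS L) f ∧
      ∀ x y, E x y ↔ Nonempty (@FirstOrder.Language.Equiv L ℕ ℕ (f x) (f y))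

section aux

open Pool.Agent.H468R2

variable {H : Type} [NormedAddCommGroup H] [InnerProductSpace ℂ H] [CompleteSpace H]

theorem std (M : VonNeumannAlgebra H) (Ω : H) (h : MA.IsStdII1 M Ω) : IsStdII1 M Ω :=
  ⟨h.unit, h.tr, h.cyc, h.sep, h.fac, h.inf⟩

theorem hyp (M : VonNeumannAlgebra H) (Ω : H) (h : MA.Hyperfinite M Ω) : Hyperfinite M Ω := by
  obtain ⟨N, h1, h2, h3, h4⟩ := h
  refine ⟨fun n => (N n : Set (H →L[ℂ] H)), fun n => ?_, fun n => h1 (Nat.le_succ n), h3, h4⟩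
  have := h2 n
  refine ⟨⟨one_mem _, fun x hx y hy => add_mem hx hy, fun x hx y hy => mul_mem hx hy,
    fun c x hx => (N n).smul_mem hx c, fun x hx => star_mem hx⟩, ?_⟩
  refine ⟨Module.finrank ℂ (N n), fun i => ((Module.finBasis ℂ (N n)) i : H →L[ℂ] H),
    fun x hx => ⟨fun i => (Module.finBasis ℂ (N n)).repr ⟨x, hx⟩ i, ?_⟩⟩
  have h := congrArg (fun z : N n => (z : H →L[ℂ] H))
    ((Module.finBasis ℂ (N n)).sum_repr ⟨x, hx⟩)
  exact h.symm.trans (AddSubmonoidClass.coe_finsetSum _ _)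

/-- a *-subalgebra from a set -/
def toAlg (A : Set (H →L[ℂ] H)) (h : IsStarAlg A) : StarSubalgebra ℂ (H →L[ℂ] H) where
  carrier := A
  one_mem' := h.one
  zero_mem' := by simpa using h.smul 0 1 h.one
  add_mem' := fun {x y} hx hy => h.add x hx y hy
  mul_mem' := fun {x y} hx hy => h.mul x hx y hy
  algebraMap_mem' := fun c => by
    rw [Algebra.algebraMap_eq_smul_one]
    exact h.smul c 1 h.one
  star_mem' := fun {x} hx => h.adj x hx

theorem masa_of (M : VonNeumannAlgebra H) (A : MA.Masa M) :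
    IsMasa M (A.1 : Set (H →L[ℂ] H)) := by
  refine ⟨⟨⟨one_mem _, fun x hx y hy => add_mem hx hy, fun x hx y hy => mul_mem hx hy,
    fun c x hx => A.1.smul_mem hx c, fun x hx => star_mem hx⟩, A.2.1, A.2.2.1⟩, ?_⟩
  intro B hB hAB x hx
  exact A.2.2.2 (toAlg B hB.1) hB.2.1 hB.2.2 (fun y hy => hAB hy) x hx

/-- change of the type of masas -/
def io (M : VonNeumannAlgebra H) (A : MA.Masa M) : Masa M := ⟨A.1, masa_of M A⟩

theorem wopen_of (U : Set (H →L[ℂ] H)) (hU : WOpen U) : MA.WOpen U := by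
  letI tp : TopologicalSpace (H →L[ℂ] H) := TopologicalSpace.induced
    (fun (T : H →L[ℂ] H) (p : H × H) => ⟪p.1, T p.2⟫_ℂ) inferInstance
  have hc : Continuous (fun (T : H →L[ℂ] H) (p : H × H) => ⟪p.1, T p.2⟫_ℂ) :=
    continuous_induced_dom
  have hc2 : ∀ p : H × H, Continuous (fun T : H →L[ℂ] H => ⟪p.1, T p.2⟫_ℂ) :=
    fun p => (continuous_apply p).comp hc
  show IsOpen U
  rw [isOpen_iff_forall_mem_open]
  intro T hT
  obtain ⟨n, ξ, η, ε, hε, h⟩ := hU T hT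
  refine ⟨⋂ i : Fin n, {S | ‖⟪η i, S (ξ i)⟫_ℂ - ⟪η i, T (ξ i)⟫_ℂ‖ < ε}, ?_, ?_, ?_⟩
  · intro S hS
    exact h S (fun i => Set.mem_iInter.1 hS i)
  · refine isOpen_iInter_of_finite fun i => ?_
    have h1 : Continuous (fun S : H →L[ℂ] H => ‖⟪η i, S (ξ i)⟫_ℂ - ⟪η i, T (ξ i)⟫_ℂ‖) :=
      ((hc2 (η i, ξ i)).sub continuous_const).norm
    exact isOpen_Iio.preimage h1
  · refine Set.mem_iInter.2 fun i => ?_
    show ‖_ - _‖ < ε
    simpa using hε

theorem io_meas (M : VonNeumannAlgebra H) :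
    @Measurable _ _ (MA.masaMS M) (effros M) (io M) := by
  refine @measurable_generateFrom _ _ (MA.masaMS M) _ _ ?_
  rintro S ⟨U, hU, rfl⟩
  exact MeasurableSpace.measurableSet_generateFrom ⟨U, wopen_of U hU, rfl⟩

theorem conj_iff (M : VonNeumannAlgebra H) (A B : MA.Masa M) :
    MA.Conj A B ↔ Conj (io M A) (io M B) := by
  constructor
  · rintro ⟨θ, hθ⟩
    refine ⟨fun x => ⟨(θ ⟨x.1, x.2⟩).1, (θ ⟨x.1, x.2⟩).2⟩, ⟨⟨?_, ?_⟩, ?_, ?_, ?_, ?_⟩, ?_⟩
    · intro x y hxy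
      have h1 : (θ ⟨x.1, x.2⟩) = (θ ⟨y.1, y.2⟩) := Subtype.ext (congrArg Subtype.val hxy)
      exact Subtype.ext (congrArg Subtype.val (θ.injective h1))
    · intro y
      refine ⟨⟨(θ.symm ⟨y.1, y.2⟩).1, (θ.symm ⟨y.1, y.2⟩).2⟩, Subtype.ext ?_⟩
      exact congrArg Subtype.val (θ.apply_symm_apply ⟨y.1, y.2⟩)
    · intro x y z hz
      have h1 : (⟨z.1, z.2⟩ : M.toStarSubalgebra) = ⟨x.1, x.2⟩ + ⟨y.1, y.2⟩ := Subtype.ext hz
      have h2 := congrArg (fun w => (θ w).1) h1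
      exact h2.trans (congrArg Subtype.val (map_add θ _ _))
    · intro x y z hz
      have h1 : (⟨z.1, z.2⟩ : M.toStarSubalgebra) = ⟨x.1, x.2⟩ * ⟨y.1, y.2⟩ := Subtype.ext hz
      have h2 := congrArg (fun w => (θ w).1) h1
      exact h2.trans (congrArg Subtype.val (map_mul θ _ _))
    · intro c x z hz
      have h1 : (⟨z.1, z.2⟩ : M.toStarSubalgebra) = c • ⟨x.1, x.2⟩ := Subtype.ext hz
      have h2 := congrArg (fun w => (θ w).1) h1
      exact h2.trans (congrArg Subtype.val (map_smul θ c _))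
    · intro x z hz
      have h1 : (⟨z.1, z.2⟩ : M.toStarSubalgebra) = star ⟨x.1, x.2⟩ := Subtype.ext hz
      have h2 := congrArg (fun w => (θ w).1) h1
      exact h2.trans (congrArg Subtype.val (map_star θ _))
    · intro x
      exact hθ ⟨x.1, x.2⟩
  · rintro ⟨θ, h, hθ⟩
    let e : El M ≃ El M := Equiv.ofBijective θ h.bij
    have he : ∀ x, e x = θ x := fun x => rfl
    let φ : M.toStarSubalgebra → M.toStarSubalgebra := fun x => ⟨(e ⟨x.1, x.2⟩).1, (e ⟨x.1, x.2⟩).2⟩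
    let ψ : M.toStarSubalgebra → M.toStarSubalgebra :=
      fun x => ⟨(e.symm ⟨x.1, x.2⟩).1, (e.symm ⟨x.1, x.2⟩).2⟩
    let Θ : MA.Au M :=
      { toFun := φ
        invFun := ψ
        left_inv := fun x => Subtype.ext (by
          exact congrArg Subtype.val (e.symm_apply_apply ⟨x.1, x.2⟩))
        right_inv := fun x => Subtype.ext (by
          exact congrArg Subtype.val (e.apply_symm_apply ⟨x.1, x.2⟩))
        map_mul' := fun x y => Subtype.ext (h.mul ⟨x.1, x.2⟩ ⟨y.1, y.2⟩ _ rfl)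
        map_add' := fun x y => Subtype.ext (h.add ⟨x.1, x.2⟩ ⟨y.1, y.2⟩ _ rfl)
        map_star' := fun x => Subtype.ext (h.adj ⟨x.1, x.2⟩ _ rfl)
        map_smul' := fun c x => Subtype.ext (h.smul c ⟨x.1, x.2⟩ _ rfl) }
    refine ⟨Θ, fun z => ?_⟩
    exact hθ ⟨z.1, z.2⟩

theorem classifiable_of (M : VonNeumannAlgebra H)
    (h : Classifiable (effros M) (Conj (M := M))) : MA.Classifiable (MA.Conj (M := M)) := by
  obtain ⟨L, hF, hR, f, hf, hE⟩ := h
  refine ⟨L, hF, hR, fun A => f (io M A), ?_, fun A B => ?_⟩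
  · exact @Measurable.comp _ _ _ (MA.masaMS M) (effros M) (modMS L) _ _ hf (io_meas M)
  · rw [conj_iff, hE]

end aux

/-- There is a hyperfinite II₁ factor `M` in standard form on a separable Hilbert space such that
conjugacy of masas by *-automorphisms of `M` is not classifiable by countable structures. By the
Murray-von Neumann theorem `M` is the hyperfinite II₁ factor `R` acting on `L²(R)`. -/
theorem result : ∃ (H : Type) (_ : NormedAddCommGroup H) (_ : InnerProductSpace ℂ H)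
    (_ : CompleteSpace H) (M : VonNeumannAlgebra H) (Ω : H), TopologicalSpace.SeparableSpace H ∧
      IsStdII1 M Ω ∧ Hyperfinite M Ω ∧ ¬ Classifiable (effros M) (Conj (M := M)) := by
  obtain ⟨H, i1, i2, i3, M, Ω, h1, h2, h3, h4⟩ := Pool.Agent.H468R2.MA.final
  exact ⟨H, i1, i2, i3, M, Ω, h1, std M Ω h2, hyp M Ω h3, fun h => h4 (classifiable_of M h)⟩

end Pool.Agent.Results.MP_c82b80_an.NotClassifiable
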